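import Mathlib
import Pool.Agent.Helper344.FNW.Count
import Pool.Agent.Helper344.FNW.ResNilp

/-!
# Words defining group laws on all free nilpotent groups (MP_c4ae4c_al)
-/

namespace Pool.Agent.Results.MP_c4ae4c_al.OnlyTwoWords

open Pool.Agent.Helper344.FNW

/-- `ev w x y` is `w(x, y)`: the image of `w` under `a ↦ x`, `b ↦ y`. -/
def ev {G : Type*} [Group G] (w : FreeGroup (Fin 2)) (x y : G) : G :=
  FreeGroup.lift ![x, y] w

/-- The binary operation `op` makes the set `G` into a group. -/
def IsGroupOp {G : Type*} (op : G → G → G) : Prop :=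
  (∀ x y z, op (op x y) z = op x (op y z)) ∧
    ∃ e, (∀ x, op e x = x ∧ op x e = x) ∧ ∀ x, ∃ y, op x y = e ∧ op y x = e

/-- The free nilpotent group `F_n / γ_{k+1}(F_n)`. -/
abbrev FreeNil (n k : ℕ) : Type :=
  FreeGroup (Fin n) ⧸ (Subgroup.lowerCentralSeries (⊤ : Subgroup (FreeGroup (Fin n))) k)

/-- Property (N): for all `n ≥ 2` and all `k` (`γ_1, γ_2, …` are the terms number `0, 1, …` of
Mathlib's series), `w` defines a group operation on `F_n / γ_{k+1}(F_n)`. -/
def PropN (w : FreeGroup (Fin 2)) : Prop :=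
  ∀ n k : ℕ, 2 ≤ n → IsGroupOp (fun x y : FreeNil n k => ev w x y)

lemma ev_hom {G K : Type*} [Group G] [Group K] (φ : G →* K) (w : FreeGroup (Fin 2)) (x y : G) :
    φ (ev w x y) = ev w (φ x) (φ y) := by
  unfold ev
  have h : φ.comp (FreeGroup.lift ![x, y]) = FreeGroup.lift ![φ x, φ y] := by
    apply FreeGroup.ext_hom
    intro i
    rw [MonoidHom.comp_apply, FreeGroup.lift_apply_of, FreeGroup.lift_apply_of]
    fin_cases i <;> rfl
  rw [← h]
  rfl

/-- In a commutative group the value of a word is determined by the exponent sums. -/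
lemma ev_comm {A : Type*} [CommGroup A] (w : FreeGroup (Fin 2)) (x y : A) :
    ev w x y = x ^ (Multiplicative.toAdd (chi 0 w)) * y ^ (Multiplicative.toAdd (chi 1 w)) := by
  unfold ev
  induction w using FreeGroup.induction_on with
  | C1 => simp
  | of i =>
    fin_cases i <;> simp [chi]
  | inv_of i _ =>
    fin_cases i <;> simp [chi]
  | mul g h ihg ihh =>
    rw [map_mul, ihg, ihh, map_mul (chi 0), map_mul (chi 1), toAdd_mul, toAdd_mul, zpow_add, zpow_add]
    exact mul_mul_mul_comm _ _ _ _

/-- The total degree `F_2 / γ_2 → ℤ`. -/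
def deg : FreeNil 2 1 →* Multiplicative ℤ :=
  QuotientGroup.lift _ (FreeGroup.lift (fun _ => Multiplicative.ofAdd (1 : ℤ))) (by
    have h : Subgroup.lowerCentralSeries (⊤ : Subgroup (FreeGroup (Fin 2))) 1 ≤
        (FreeGroup.lift (fun _ : Fin 2 => Multiplicative.ofAdd (1 : ℤ))).ker := by
      change ⁅Subgroup.lowerCentralSeries (⊤ : Subgroup (FreeGroup (Fin 2))) 0, ⊤⁆ ≤ _
      rw [Subgroup.commutator_le]
      intro g _ h _
      rw [MonoidHom.mem_ker, commutatorElement_def, map_mul, map_mul, map_mul, map_inv, map_inv]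
      rw [mul_comm (FreeGroup.lift _ g) (FreeGroup.lift _ h)]
      group
    exact h)

lemma exponents {w : FreeGroup (Fin 2)} (hw : PropN w) :
    Multiplicative.toAdd (chi 0 w) = 1 ∧ Multiplicative.toAdd (chi 1 w) = 1 := by
  obtain ⟨-, e, he, -⟩ := hw 2 1 (le_refl _)
  have hdeg : deg (QuotientGroup.mk (FreeGroup.of (0 : Fin 2))) = Multiplicative.ofAdd (1 : ℤ) := by
    change FreeGroup.lift (fun _ => Multiplicative.ofAdd (1 : ℤ)) (FreeGroup.of (0 : Fin 2)) = _
    rw [FreeGroup.lift_apply_of]
  have key : ∀ x : FreeNil 2 1,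
      (Multiplicative.toAdd (chi 0 w)) * Multiplicative.toAdd (deg e) +
        (Multiplicative.toAdd (chi 1 w)) * Multiplicative.toAdd (deg x) =
          Multiplicative.toAdd (deg x) ∧
      (Multiplicative.toAdd (chi 0 w)) * Multiplicative.toAdd (deg x) +
        (Multiplicative.toAdd (chi 1 w)) * Multiplicative.toAdd (deg e) =
          Multiplicative.toAdd (deg x) := by
    intro x
    obtain ⟨h1, h2⟩ := he x
    have h3 := congrArg (fun t => Multiplicative.toAdd (deg t)) h1
    have h4 := congrArg (fun t => Multiplicative.toAdd (deg t)) h2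
    simp only [ev_hom, ev_comm, toAdd_mul, toAdd_zpow, smul_eq_mul] at h3 h4
    exact ⟨h3, h4⟩
  have k1 := key 1
  have k2 := key (QuotientGroup.mk (FreeGroup.of (0 : Fin 2)))
  rw [hdeg] at k2
  simp only [map_one, toAdd_one, mul_zero, add_zero, zero_add, toAdd_ofAdd, mul_one] at k1 k2
  constructor
  · have := k2.2
    rw [k1.2] at this
    simpa using this
  · have := k2.1
    rw [k1.1] at this
    simpa using this

/-- Associativity passes to the free group of rank 3. -/
lemma assoc_free {w : FreeGroup (Fin 2)} (hw : PropN w) :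
    ev w (ev w (FreeGroup.of (0 : Fin 3)) (FreeGroup.of 1)) (FreeGroup.of 2) =
      ev w (FreeGroup.of (0 : Fin 3)) (ev w (FreeGroup.of 1) (FreeGroup.of 2)) := by
  rw [← inv_mul_eq_one]
  apply Res.eq_one_of_mem
  intro k
  obtain ⟨h, -⟩ := hw 3 k (by norm_num)
  have h1 := h (QuotientGroup.mk (FreeGroup.of (0 : Fin 3))) (QuotientGroup.mk (FreeGroup.of 1))
    (QuotientGroup.mk (FreeGroup.of 2))
  simp only at h1
  have h2 : ∀ x y : FreeGroup (Fin 3),
      ev w (QuotientGroup.mk x : FreeNil 3 k) (QuotientGroup.mk y) =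
        QuotientGroup.mk (ev w x y) := by
    intro x y
    exact (ev_hom (QuotientGroup.mk' _) w x y).symm
  rw [h2, h2, h2, h2] at h1
  exact QuotientGroup.eq.mp h1

lemma chi_relabel {α : Type*} [DecidableEq α] (ι : Fin 2 → α) (hι : Function.Injective ι)
    (w : FreeGroup (Fin 2)) (x : Fin 2) :
    chi (ι x) (FreeGroup.lift (fun x => FreeGroup.of (ι x)) w) = chi x w := by
  have h : (chi (ι x)).comp (FreeGroup.lift (fun x => FreeGroup.of (ι x))) = chi x := by
    apply FreeGroup.ext_hom
    intro i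
    rw [MonoidHom.comp_apply, FreeGroup.lift_apply_of]
    unfold chi
    rw [FreeGroup.lift_apply_of, FreeGroup.lift_apply_of]
    simp [hι.eq_iff]
  rw [← h]
  rfl

lemma ev_relabel {α : Type*} (ι : Fin 2 → α) (w : FreeGroup (Fin 2)) :
    ev w (FreeGroup.of (ι 0)) (FreeGroup.of (ι 1)) =
      FreeGroup.lift (fun x => FreeGroup.of (ι x)) w := by
  unfold ev
  congr 2
  funext i
  fin_cases i <;> rfl

lemma counts {w : FreeGroup (Fin 2)} (hw : PropN w) :
    cnt 0 w.toWord ≤ 1 ∧ cnt 1 w.toWord ≤ 1 := by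
  obtain ⟨hs, ht⟩ := exponents hw
  have hassoc := assoc_free hw
  set ι₁ : Fin 2 → Fin 3 := ![0, 1] with hι₁
  set ι₂ : Fin 2 → Fin 3 := ![1, 2] with hι₂
  have hinj₁ : Function.Injective ι₁ := by decide
  have hinj₂ : Function.Injective ι₂ := by decide
  have hu : ev w (FreeGroup.of (0 : Fin 3)) (FreeGroup.of 1) =
      FreeGroup.lift (fun x => FreeGroup.of (ι₁ x)) w := ev_relabel ι₁ w
  have hv : ev w (FreeGroup.of (1 : Fin 3)) (FreeGroup.of 2) =
      FreeGroup.lift (fun x => FreeGroup.of (ι₂ x)) w := ev_relabel ι₂ w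
  set u := ev w (FreeGroup.of (0 : Fin 3)) (FreeGroup.of 1) with hudef
  set v := ev w (FreeGroup.of (1 : Fin 3)) (FreeGroup.of 2) with hvdef
  have hcof : ∀ i j : Fin 3, cnt i (FreeGroup.of j).toWord = if j = i then 1 else 0 := by
    intro i j
    rw [FreeGroup.toWord_of]
    simp [cnt_cons]
  constructor
  · -- the letter `a`
    by_contra hcon
    have h2 : 2 ≤ cnt 0 w.toWord := by omega
    have hu2 : cnt 2 u.toWord = 0 := by
      have := upper_bound 2 ![FreeGroup.of (0 : Fin 3), FreeGroup.of 1] w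
      have h3 : FreeGroup.lift ![FreeGroup.of (0 : Fin 3), FreeGroup.of 1] w = u := rfl
      rw [h3] at this
      simpa [cnt_cons] using this
    have hu0 : cnt 0 u.toWord = cnt 0 w.toWord := by
      rw [hu]
      exact cnt_relabel ι₁ hinj₁ w 0
    have hchi : chi 0 u ≠ 1 := by
      rw [hu]
      have h3 := chi_relabel ι₁ hinj₁ w 0
      intro h4
      have h5 : chi 0 w = 1 := h3.symm.trans h4
      rw [h5] at hs
      simp at hs
    have hlow := lower_bound (2 : Fin 3) 0 (by decide) u hu2 (kap_pos 0 u hchi) (0 : Fin 2) 1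
      ![u, FreeGroup.of 2] rfl (fun x hx => by
        have : x = 1 := by omega
        subst this; rfl) (fun x hx => by omega) w h2
    have hup := upper_bound 0 ![FreeGroup.of (0 : Fin 3), v] w
    have hv0 : cnt 0 v.toWord = 0 := by
      have := upper_bound 0 ![FreeGroup.of (1 : Fin 3), FreeGroup.of 2] w
      have h3 : FreeGroup.lift ![FreeGroup.of (1 : Fin 3), FreeGroup.of 2] w = v := rfl
      rw [h3] at this
      simpa [cnt_cons] using this
    have hE : FreeGroup.lift ![u, FreeGroup.of 2] w =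
        FreeGroup.lift ![FreeGroup.of (0 : Fin 3), v] w := hassoc
    rw [hE, hu0] at hlow
    simp only [Matrix.cons_val_zero, Matrix.cons_val_one, hv0, hcof] at hup
    simp at hup
    omega
  · -- the letter `b`
    by_contra hcon
    have h2 : 2 ≤ cnt 1 w.toWord := by omega
    have hv0 : cnt 0 v.toWord = 0 := by
      have := upper_bound 0 ![FreeGroup.of (1 : Fin 3), FreeGroup.of 2] w
      have h3 : FreeGroup.lift ![FreeGroup.of (1 : Fin 3), FreeGroup.of 2] w = v := rfl
      rw [h3] at this
      simpa [cnt_cons] using this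
    have hv2 : cnt 2 v.toWord = cnt 1 w.toWord := by
      rw [hv]
      exact cnt_relabel ι₂ hinj₂ w 1
    have hchi : chi 2 v ≠ 1 := by
      rw [hv]
      have h3 := chi_relabel ι₂ hinj₂ w 1
      intro h4
      have h5 : chi 1 w = 1 := h3.symm.trans h4
      rw [h5] at ht
      simp at ht
    have hlow := lower_bound (0 : Fin 3) 2 (by decide) v hv0 (kap_pos 2 v hchi) (1 : Fin 2) 0
      ![FreeGroup.of 0, v] rfl (fun x hx => by
        have : x = 0 := by omega
        subst this; rfl) (fun x hx => by omega) w h2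
    have hup := upper_bound 2 ![u, FreeGroup.of (2 : Fin 3)] w
    have hu2 : cnt 2 u.toWord = 0 := by
      have := upper_bound 2 ![FreeGroup.of (0 : Fin 3), FreeGroup.of 1] w
      have h3 : FreeGroup.lift ![FreeGroup.of (0 : Fin 3), FreeGroup.of 1] w = u := rfl
      rw [h3] at this
      simpa [cnt_cons] using this
    have hE : FreeGroup.lift ![u, FreeGroup.of 2] w =
        FreeGroup.lift ![FreeGroup.of (0 : Fin 3), v] w := hassoc
    rw [← hE, hv2] at hlow
    simp only [Matrix.cons_val_zero, Matrix.cons_val_one, hu2, hcof] at hup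
    simp at hup
    omega

lemma cnt_add (L : List (Fin 2 × Bool)) : cnt 0 L + cnt 1 L = L.length := by
  induction L with
  | nil => rfl
  | cons p L ih =>
    rw [cnt_cons, cnt_cons, List.length_cons, ← ih]
    obtain ⟨x, b⟩ := p
    have hx : x = 0 ∨ x = 1 := by omega
    rcases hx with rfl | rfl <;> simp <;> omega

/-- The group operation and its opposite. -/
lemma propN_mul : PropN (FreeGroup.of 0 * FreeGroup.of 1) := by
  intro n k _
  have h : ∀ x y : FreeNil n k, ev (FreeGroup.of 0 * FreeGroup.of 1) x y = x * y := by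
    intro x y
    simp [ev]
  refine ⟨fun x y z => ?_, 1, fun x => ?_, fun x => ⟨x⁻¹, ?_⟩⟩
  · simp only [h]; exact mul_assoc x y z
  · simp only [h]; exact ⟨one_mul x, mul_one x⟩
  · simp only [h]; exact ⟨mul_inv_cancel x, inv_mul_cancel x⟩

lemma propN_op : PropN (FreeGroup.of 1 * FreeGroup.of 0) := by
  intro n k _
  have h : ∀ x y : FreeNil n k, ev (FreeGroup.of 1 * FreeGroup.of 0) x y = y * x := by
    intro x y
    simp [ev]
  refine ⟨fun x y z => ?_, 1, fun x => ?_, fun x => ⟨x⁻¹, ?_⟩⟩
  · simp only [h]; exact (mul_assoc z y x).symm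
  · simp only [h]; exact ⟨mul_one x, one_mul x⟩
  · simp only [h]; exact ⟨inv_mul_cancel x, mul_inv_cancel x⟩

/-- **The words with property (N) are exactly `ab` and `ba`.** -/
theorem result (w : FreeGroup (Fin 2)) :
    PropN w ↔ w = FreeGroup.of 0 * FreeGroup.of 1 ∨ w = FreeGroup.of 1 * FreeGroup.of 0 := by
  constructor
  · intro hw
    obtain ⟨h0, h1⟩ := counts hw
    obtain ⟨hs, ht⟩ := exponents hw
    have hlen := cnt_add w.toWord
    have hmk := FreeGroup.mk_toWord (x := w)
    have hc0 : cnt 0 w.toWord ≠ 0 := by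
      intro h
      have := chi_mk_of_cnt 0 w.toWord h
      rw [hmk] at this
      rw [this] at hs
      simp at hs
    have hc1 : cnt 1 w.toWord ≠ 0 := by
      intro h
      have := chi_mk_of_cnt 1 w.toWord h
      rw [hmk] at this
      rw [this] at ht
      simp at ht
    have hlen2 : w.toWord.length = 2 := by omega
    obtain ⟨p, q, hpq⟩ := List.length_eq_two.mp hlen2
    rw [hpq] at hmk hc0 hc1
    rw [← hmk] at hs ht ⊢
    obtain ⟨x, b⟩ := p
    obtain ⟨y, b'⟩ := q
    have hx : x = 0 ∨ x = 1 := by omega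
    have hy : y = 0 ∨ y = 1 := by omega
    rcases hx with rfl | rfl <;> rcases hy with rfl | rfl
    · simp [cnt_cons] at hc1
    · left
      cases b <;> cases b' <;> simp [chi] at hs ht
      rfl
    · right
      cases b <;> cases b' <;> simp [chi] at hs ht
      rfl
    · simp [cnt_cons] at hc0
  · rintro (rfl | rfl)
    · exact propN_mul
    · exact propN_op

end Pool.Agent.Results.MP_c4ae4c_al.OnlyTwoWords
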